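import Pool.Agent.E8helper19.LC.Stm2
import Pool.Agent.E8helper25.LC.D2

/-!
# Project LC, piece LC25: the signed first moment of the kernel `D`
-/

set_option autoImplicit false
open MeasureTheory Filter Topology Set

namespace Pool.Agent.E8helper13.LC

open Pool.Agent.E8helper19.LC
open Pool.Agent.E8helper25.LC (scal absint line Dk_meas straight mu_bd GD)

noncomputable section

theorem ae_ne' (s : ℝ) : ∀ᵐ t : ℝ, t ≠ s := by
  rw [ae_iff]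
  simp

theorem pt_near2 (α μ κ κm x r ρ C0 C1 gx gy h q : ℝ) (hα : 0 ≤ α) (hμ : 0 ≤ μ)
    (hC1 : 0 ≤ C1) (hx : |x| = r) (hρ : ρ ≤ r) (h1 : r - ρ ≤ C0 * r ^ 3)
    (h2 : |(r - ρ) - κm * r ^ 3 / 24| ≤ C1 * r ^ 5) (h2' : |κm - κ| ≤ C1 * r)
    (h3 : |gx - gy - (μ * r - μ * ρ) * h| ≤ (μ * r - μ * ρ) ^ 2 * q) (hh : 0 ≤ h) (hq : 0 ≤ q) :
    |x * (α * (gx - gy)) - α * μ * κ / 24 * (x * (r ^ 3 * h))| ≤
      α * μ ^ 2 * C0 ^ 2 * (r ^ 7 * q) + α * μ * C1 * (r ^ 6 * h) + α * μ * C1 * (r ^ 5 * h) := by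
  have hr : 0 ≤ r := by rw [← hx]; exact abs_nonneg _
  have e : x * (α * (gx - gy)) - α * μ * κ / 24 * (x * (r ^ 3 * h)) =
      x * (α * (gx - gy - (μ * r - μ * ρ) * h)) +
      x * (α * μ * h * ((r - ρ) - κm * r ^ 3 / 24)) +
      x * (α * μ * h * (r ^ 3 / 24) * (κm - κ)) := by ring
  rw [e]
  refine (abs_add_three _ _ _).trans (add_le_add (add_le_add ?_ ?_) ?_)
  · rw [abs_mul, abs_mul, abs_of_nonneg hα, hx]
    have h4 : (μ * r - μ * ρ) ^ 2 ≤ (μ * (C0 * r ^ 3)) ^ 2 := by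
      have h5 : 0 ≤ μ * r - μ * ρ := by
        have := mul_le_mul_of_nonneg_left hρ hμ
        linarith
      have h6 : μ * r - μ * ρ ≤ μ * (C0 * r ^ 3) := by
        rw [← mul_sub]; exact mul_le_mul_of_nonneg_left h1 hμ
      exact pow_le_pow_left₀ h5 h6 2
    calc r * (α * |gx - gy - (μ * r - μ * ρ) * h|) ≤ r * (α * ((μ * (C0 * r ^ 3)) ^ 2 * q)) :=
          mul_le_mul_of_nonneg_left
            (mul_le_mul_of_nonneg_left (h3.trans (mul_le_mul_of_nonneg_right h4 hq)) hα) hr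
      _ = α * μ ^ 2 * C0 ^ 2 * (r ^ 7 * q) := by ring
  · rw [abs_mul, abs_mul, abs_of_nonneg (by positivity : 0 ≤ α * μ * h), hx]
    calc r * (α * μ * h * |(r - ρ) - κm * r ^ 3 / 24|) ≤ r * (α * μ * h * (C1 * r ^ 5)) :=
          mul_le_mul_of_nonneg_left (mul_le_mul_of_nonneg_left h2 (by positivity)) hr
      _ = α * μ * C1 * (r ^ 6 * h) := by ring
  · rw [abs_mul, abs_mul, abs_of_nonneg (by positivity : 0 ≤ α * μ * h * (r ^ 3 / 24)), hx]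
    calc r * (α * μ * h * (r ^ 3 / 24) * |κm - κ|) ≤ r * (α * μ * h * (r ^ 3 / 24) * (C1 * r)) :=
          mul_le_mul_of_nonneg_left (mul_le_mul_of_nonneg_left h2' (by positivity)) hr
      _ = α * μ * C1 * (r ^ 5 * h) / 24 := by ring
      _ ≤ α * μ * C1 * (r ^ 5 * h) := by
          have : 0 ≤ α * μ * C1 * (r ^ 5 * h) := by positivity
          linarith

theorem odd_int (f : ℝ → ℝ) (s : ℝ) : ∫ t : ℝ, (t - s) * f |t - s| = 0 := by
  rw [integral_sub_right_eq_self (fun t : ℝ => t * f |t|) s]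
  have h1 : ∫ t : ℝ, (-t) * f |-t| = ∫ t : ℝ, t * f |t| :=
    integral_neg_eq_self (fun t : ℝ => t * f |t|) volume
  have h2 : ∫ t : ℝ, (-t) * f |-t| = -∫ t : ℝ, t * f |t| := by
    rw [← integral_neg]
    refine integral_congr_ae (ae_of_all _ fun t => ?_)
    simp only [abs_neg]
    ring
  linarith

theorem near2 (h3 : S_G) {H Q : ℝ → ℝ} (hd : GD H Q) (hHm : Measurable H) {γ : ℝ → P}
    {L c C0 C1 : ℝ} (hγ : Crv γ L)
    (hc : 0 < c) (hch : ∀ s t, c * |s - t| ≤ ‖γ s - γ t‖) (hC : 0 < C0) (hC1 : 0 < C1)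
    (t1 : ∀ s t, ‖γ s - γ t‖ ≤ |s - t|)
    (t2 : ∀ s t, |s - t| - ‖γ s - γ t‖ ≤ C0 * |s - t| ^ 3)
    (t3 : ∀ s t, |(|s - t| - ‖γ s - γ t‖) - kap2 γ ((s + t) / 2) * |s - t| ^ 3 / 24| ≤
      C1 * |s - t| ^ 5)
    (t4 : ∀ s h, |kap2 γ (s + h) - kap2 γ s| ≤ C1 * |h|)
    {α k : ℝ} (hα : 0 ≤ α) (hμ : 0 < mu α k) (s : ℝ) :
    |∫ t, (t - s) * Dk α k γ t s| ≤
      α * (mu α k) ^ 2 * C0 ^ 2 *
          (2 * ((mu α k * c)⁻¹ ^ 8 * ∫ x in Ioi (0:ℝ), x ^ 7 * Q x)) +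
        α * mu α k * C1 * (2 * ((mu α k)⁻¹ ^ 7 * ∫ x in Ioi (0:ℝ), x ^ 6 * H x)) +
        α * mu α k * C1 * (2 * ((mu α k)⁻¹ ^ 6 * ∫ x in Ioi (0:ℝ), x ^ 5 * H x)) := by
  have hmeas := Dk_meas h3 hγ hc hch α k s hμ
  set μ := mu α k with hμd
  have hμc : 0 < μ * c := mul_pos hμ hc
  obtain ⟨iQ, vQ⟩ := line Q 7 hμc s (hd.Qi 7 (by norm_num))
  obtain ⟨iH, vH⟩ := line H 6 hμ s (hd.Hi 6 (by norm_num))
  obtain ⟨iH5, vH5⟩ := line H 5 hμ s (hd.Hi 5 (by norm_num))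
  obtain ⟨iM, -⟩ := line H 4 hμ s (hd.Hi 4 (by norm_num))
  have hpt : ∀ᵐ t : ℝ, ‖(t - s) * Dk α k γ t s -
      α * μ * kap2 γ s / 24 * ((t - s) * (|t - s| ^ 3 * H (μ * |t - s|)))‖ ≤
      α * μ ^ 2 * C0 ^ 2 * (|t - s| ^ 7 * Q (μ * c * |t - s|)) +
        α * μ * C1 * (|t - s| ^ 6 * H (μ * |t - s|)) +
        α * μ * C1 * (|t - s| ^ 5 * H (μ * |t - s|)) := by
    filter_upwards [ae_ne' s] with t ht
    have hr : 0 < |t - s| := abs_pos.2 (sub_ne_zero.2 ht)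
    have hρ : 0 < ‖γ t - γ s‖ := lt_of_lt_of_le (mul_pos hc hr) (hch t s)
    have hx : 0 < μ * ‖γ t - γ s‖ := mul_pos hμ hρ
    have hxy : μ * ‖γ t - γ s‖ ≤ μ * |t - s| := mul_le_mul_of_nonneg_left (t1 t s) hμ.le
    have hq : Q (μ * ‖γ t - γ s‖) ≤ Q (μ * c * |t - s|) := by
      apply hd.Qm _ _ (by positivity)
      rw [mul_assoc]
      exact mul_le_mul_of_nonneg_left (hch t s) hμ.le
    have hg := hd.G2 _ _ hx hxy
    have hg2 : |Gk 1 (μ * ‖γ t - γ s‖) - Gk 1 (μ * |t - s|) -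
        (μ * |t - s| - μ * ‖γ t - γ s‖) * H (μ * |t - s|)| ≤
        (μ * |t - s| - μ * ‖γ t - γ s‖) ^ 2 * Q (μ * c * |t - s|) :=
      hg.trans (mul_le_mul_of_nonneg_left hq (sq_nonneg _))
    have hk : |kap2 γ ((t + s) / 2) - kap2 γ s| ≤ C1 * |t - s| := by
      have h5 := t4 s ((t - s) / 2)
      have h6 : s + (t - s) / 2 = (t + s) / 2 := by ring
      rw [h6] at h5
      refine h5.trans ?_
      rw [abs_div, abs_of_pos (by norm_num : (0:ℝ) < 2)]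
      have : 0 ≤ C1 * |t - s| := by positivity
      linarith
    rw [Real.norm_eq_abs, Dk, ← hμd, (h3.1 μ _ hμ hρ).2, (h3.1 μ _ hμ hr).2]
    exact pt_near2 α μ (kap2 γ s) (kap2 γ ((t + s) / 2)) (t - s) |t - s| ‖γ t - γ s‖ C0 C1 _ _ _ _
      hα hμ.le hC1.le rfl (t1 t s) (t2 t s) (t3 t s) hk hg2 (hd.H0 _ (by positivity))
      (hd.Q0 _ (by positivity))
  have iB : Integrable (fun t : ℝ => α * μ ^ 2 * C0 ^ 2 * (|t - s| ^ 7 * Q (μ * c * |t - s|)) +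
        α * μ * C1 * (|t - s| ^ 6 * H (μ * |t - s|)) +
        α * μ * C1 * (|t - s| ^ 5 * H (μ * |t - s|))) :=
    ((iQ.const_mul _).add (iH.const_mul _)).add (iH5.const_mul _)
  have iM0 : Integrable (fun t : ℝ => (t - s) * (|t - s| ^ 3 * H (μ * |t - s|))) := by
    refine iM.mono' ?_ ?_
    · refine Measurable.aestronglyMeasurable ?_
      fun_prop
    · filter_upwards [ae_ne' s] with t ht
      have hr : 0 < |t - s| := abs_pos.2 (sub_ne_zero.2 ht)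
      have h0 : 0 ≤ H (μ * |t - s|) := hd.H0 _ (by positivity)
      rw [norm_mul, Real.norm_eq_abs, Real.norm_of_nonneg (by positivity)]
      exact le_of_eq (by ring)
  have iMm : Integrable (fun t : ℝ => α * μ * kap2 γ s / 24 *
      ((t - s) * (|t - s| ^ 3 * H (μ * |t - s|)))) := iM0.const_mul _
  have hms : AEStronglyMeasurable (fun t => (t - s) * Dk α k γ t s) volume :=
    (by fun_prop : AEStronglyMeasurable (fun t : ℝ => t - s) volume).mul hmeas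
  have iE : Integrable (fun t : ℝ => (t - s) * Dk α k γ t s -
      α * μ * kap2 γ s / 24 * ((t - s) * (|t - s| ^ 3 * H (μ * |t - s|)))) :=
    iB.mono' (hms.sub iMm.aestronglyMeasurable) hpt
  have iD : Integrable (fun t => (t - s) * Dk α k γ t s) := by
    have := iE.add iMm
    refine this.congr (Eventually.of_forall fun t => ?_)
    simp
  have e1 : ∫ t, α * μ * kap2 γ s / 24 * ((t - s) * (|t - s| ^ 3 * H (μ * |t - s|))) = 0 := by
    rw [integral_const_mul, odd_int (fun r => r ^ 3 * H (μ * r)) s, mul_zero]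
  have e2 : ∫ t, (t - s) * Dk α k γ t s = ∫ t, ((t - s) * Dk α k γ t s -
      α * μ * kap2 γ s / 24 * ((t - s) * (|t - s| ^ 3 * H (μ * |t - s|)))) := by
    rw [integral_sub iD iMm, e1, sub_zero]
  rw [e2]
  have h5 := norm_integral_le_of_norm_le iB hpt
  rw [Real.norm_eq_abs] at h5
  refine h5.trans (le_of_eq ?_)
  have iA : Integrable (fun t : ℝ => α * μ ^ 2 * C0 ^ 2 * (|t - s| ^ 7 * Q (μ * c * |t - s|)) +
        α * μ * C1 * (|t - s| ^ 6 * H (μ * |t - s|))) :=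
    (iQ.const_mul _).add (iH.const_mul _)
  rw [integral_add iA (iH5.const_mul _),
    integral_add (iQ.const_mul _) (iH.const_mul _), integral_const_mul, integral_const_mul,
    integral_const_mul, vQ, vH, vH5]

theorem far2 (h3 : S_G) {H Q : ℝ → ℝ} (hd : GD H Q) {γ : ℝ → P} {L c C0 : ℝ} (hγ : Crv γ L)
    (hc : 0 < c) (hch : ∀ s t, c * |s - t| ≤ ‖γ s - γ t‖) (hC : 0 < C0)
    (t1 : ∀ s t, ‖γ s - γ t‖ ≤ |s - t|)
    (t2 : ∀ s t, |s - t| - ‖γ s - γ t‖ ≤ C0 * |s - t| ^ 3)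
    {α k : ℝ} (hα : 0 ≤ α) (hμ : 0 < mu α k) (s : ℝ) (hs : L < |s|) :
    |∫ t, (t - s) * Dk α k γ t s| ≤
      α * mu α k * C0 * (|s| - L)⁻¹ ^ 2 *
        (2 * ((mu α k * c)⁻¹ ^ 7 * ∫ x in Ioi (0:ℝ), x ^ 6 * H x)) := by
  set μ := mu α k with hμd
  have hμc : 0 < μ * c := mul_pos hμ hc
  have hdp : 0 < |s| - L := by linarith
  obtain ⟨iH, vH⟩ := line H 6 hμc s (hd.Hi 6 (by norm_num))
  have hpt : ∀ᵐ t : ℝ, ‖(t - s) * Dk α k γ t s‖ ≤
      α * μ * C0 * (|s| - L)⁻¹ ^ 2 * (|t - s| ^ 6 * H (μ * c * |t - s|)) := by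
    filter_upwards [ae_ne' s] with t ht
    have hr : 0 < |t - s| := abs_pos.2 (sub_ne_zero.2 ht)
    have hρ : 0 < ‖γ t - γ s‖ := lt_of_lt_of_le (mul_pos hc hr) (hch t s)
    have hx : 0 < μ * ‖γ t - γ s‖ := mul_pos hμ hρ
    have hxy : μ * ‖γ t - γ s‖ ≤ μ * |t - s| := mul_le_mul_of_nonneg_left (t1 t s) hμ.le
    have hH0 : 0 ≤ H (μ * c * |t - s|) := hd.H0 _ (by positivity)
    have hrhs : 0 ≤ α * μ * C0 * (|s| - L)⁻¹ ^ 2 * (|t - s| ^ 6 * H (μ * c * |t - s|)) := by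
      positivity
    rw [norm_mul, Real.norm_eq_abs, Real.norm_eq_abs, Dk, ← hμd]
    rcases straight hγ hs t with h0 | h0
    · rw [h0]; simpa using hrhs
    · rw [(h3.1 μ _ hμ hρ).2, (h3.1 μ _ hμ hr).2]
      have g0 := h3.2.2.1 _ _ hx hxy
      have g1 := hd.G1 _ _ hx hxy
      have hHm : H (μ * ‖γ t - γ s‖) ≤ H (μ * c * |t - s|) := by
        apply hd.Hm _ _ (by positivity)
        rw [mul_assoc]
        exact mul_le_mul_of_nonneg_left (hch t s) hμ.le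
      have g2 : Gk 1 (μ * ‖γ t - γ s‖) - Gk 1 (μ * |t - s|) ≤
          (μ * (C0 * |t - s| ^ 3)) * H (μ * c * |t - s|) := by
        refine g1.trans (mul_le_mul ?_ hHm (hd.H0 _ hx) (by positivity))
        rw [← mul_sub]
        exact mul_le_mul_of_nonneg_left (t2 t s) hμ.le
      have g3 : 1 ≤ ((|s| - L)⁻¹ * |t - s|) ^ 2 := by
        apply one_le_pow₀
        rw [← div_eq_inv_mul, le_div_iff₀ hdp]
        linarith
      rw [abs_of_nonneg (mul_nonneg hα (by linarith))]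
      calc |t - s| * (α * (Gk 1 (μ * ‖γ t - γ s‖) - Gk 1 (μ * |t - s|))) ≤
            |t - s| * (α * ((μ * (C0 * |t - s| ^ 3)) * H (μ * c * |t - s|))) :=
            mul_le_mul_of_nonneg_left (mul_le_mul_of_nonneg_left g2 hα) hr.le
        _ = |t - s| * (α * ((μ * (C0 * |t - s| ^ 3)) * H (μ * c * |t - s|))) * 1 := by ring
        _ ≤ |t - s| * (α * ((μ * (C0 * |t - s| ^ 3)) * H (μ * c * |t - s|))) *
            ((|s| - L)⁻¹ * |t - s|) ^ 2 :=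
            mul_le_mul_of_nonneg_left g3 (by positivity)
        _ = _ := by ring
  have h5 := norm_integral_le_of_norm_le (iH.const_mul _) hpt
  rw [Real.norm_eq_abs] at h5
  refine h5.trans (le_of_eq ?_)
  rw [integral_const_mul, vH]

theorem inv_bd {L s : ℝ} (hL : 0 < L) (hs : 2 * L + 1 < |s|) :
    (|s| - L)⁻¹ ^ 2 ≤ 8 * (1 + s ^ 2)⁻¹ := by
  have hd1 : 0 < |s| - L := by linarith
  rw [inv_pow, ← div_eq_mul_inv, inv_le_comm₀ (by positivity) (by positivity), inv_div,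
    div_le_iff₀ (by norm_num)]
  rw [← sq_abs s]
  have h12 : |s| / 2 ≤ |s| - L := by linarith
  have h13 : (|s| / 2) ^ 2 ≤ (|s| - L) ^ 2 := pow_le_pow_left₀ (by positivity) h12 2
  have h14 : 1 ≤ |s| ^ 2 := one_le_pow₀ (by linarith)
  have h15 : (|s| / 2) ^ 2 = |s| ^ 2 / 4 := by ring
  rw [h15] at h13
  linarith

theorem t_D1C (h : S_CHORD) (h2 : S_TAY) (h3 : S_G) (h4 : S_TAY2) : S_D1C := by
  intro γ L k hγ hne hk
  obtain ⟨c, hc, _, hch⟩ := h γ L hγ hne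
  obtain ⟨C0, hC, t1, t2, -, -, -⟩ := h2 γ L hγ
  obtain ⟨C1, hC1, t3, -, t4, -⟩ := h4 γ L hγ
  obtain ⟨H, Q, hHme, hQme, hHQ0, hHQm, hG1, hG2, hHi, hQi, hH3⟩ := h3.2.2.2.2.2
  have hd : GD H Q := ⟨fun x hx => (hHQ0 x hx).1, fun x hx => (hHQ0 x hx).2,
    fun x y hx hxy => (hHQm x y hx hxy).1, fun x y hx hxy => (hHQm x y hx hxy).2, hG1, hG2, hHi,
    hQi, hH3⟩
  have hL := hγ.pos
  set IQ := ∫ x in Ioi (0:ℝ), x ^ 7 * Q x with hIQ
  set IH := ∫ x in Ioi (0:ℝ), x ^ 6 * H x with hIH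
  set IF := ∫ x in Ioi (0:ℝ), x ^ 5 * H x with hIF
  have pIQ : 0 ≤ IQ := setIntegral_nonneg measurableSet_Ioi fun x hx =>
    mul_nonneg (pow_nonneg (le_of_lt hx) _) (hd.Q0 x hx)
  have pIH : 0 ≤ IH := setIntegral_nonneg measurableSet_Ioi fun x hx =>
    mul_nonneg (pow_nonneg (le_of_lt hx) _) (hd.H0 x hx)
  have pIF : 0 ≤ IF := setIntegral_nonneg measurableSet_Ioi fun x hx =>
    mul_nonneg (pow_nonneg (le_of_lt hx) _) (hd.H0 x hx)
  set E1 := 8192 * (C0 ^ 2 * c⁻¹ ^ 8 * IQ) + 8192 * (C1 * IH) + 2048 * (C1 * IF) with hE1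
  set E2 := 65536 * (C0 * c⁻¹ ^ 7 * IH) with hE2
  have pE1 : 0 ≤ E1 := by positivity
  have pE2 : 0 ≤ E2 := by positivity
  set M := E1 * (1 + (2 * L + 1) ^ 2) + E2 with hM
  have pM : 0 ≤ M := by positivity
  refine ⟨4 * k + 1, M * Real.pi + 1, by linarith, by positivity, ?_⟩
  intro α hα
  have hα1 : 1 ≤ α := by linarith
  have hα0 : 0 < α := by linarith
  obtain ⟨m1, m2, m3⟩ := mu_bd hk hα
  have hμ : 0 < mu α k := by linarith
  set μ := mu α k with hμd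
  have hmm : μ * μ⁻¹ = 1 := mul_inv_cancel₀ hμ.ne'
  have hmp : 0 < μ⁻¹ := inv_pos.2 hμ
  have hm : μ⁻¹ ≤ 4 / α := by
    rw [inv_le_comm₀ hμ (by positivity), inv_div]; exact m1
  have ham : α * μ⁻¹ ≤ 4 := by
    have := mul_le_mul_of_nonneg_left hm hα0.le
    rwa [mul_div_cancel₀ _ hα0.ne'] at this
  have hm4 : μ⁻¹ ^ 4 ≤ 256 / α ^ 4 := by
    have h5 : μ⁻¹ ^ 4 ≤ (4 / α) ^ 4 := pow_le_pow_left₀ hmp.le hm 4
    refine h5.trans (le_of_eq ?_)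
    rw [div_pow]; norm_num
  have hm1 : μ⁻¹ ≤ 4 := by
    refine hm.trans ?_
    rw [div_le_iff₀ hα0]
    linarith
  have b5 : α * μ⁻¹ ^ 5 ≤ 1024 / α ^ 4 := by
    calc α * μ⁻¹ ^ 5 = (α * μ⁻¹) * μ⁻¹ ^ 4 := by ring
      _ ≤ 4 * (256 / α ^ 4) := mul_le_mul ham hm4 (by positivity) (by norm_num)
      _ = 1024 / α ^ 4 := by ring
  have b6 : α * μ⁻¹ ^ 6 ≤ 4096 / α ^ 4 := by
    calc α * μ⁻¹ ^ 6 = (α * μ⁻¹ ^ 5) * μ⁻¹ := by ring
      _ ≤ (1024 / α ^ 4) * 4 := mul_le_mul b5 hm1 hmp.le (by positivity)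
      _ = 4096 / α ^ 4 := by ring
  have hα4 : 0 < α ^ 4 := by positivity
  -- the pointwise bound
  have key : ∀ s, |∫ t, (t - s) * Dk α k γ t s| ≤ M / α ^ 4 * (1 + s ^ 2)⁻¹ := by
    intro s
    have hs1 : 0 < 1 + s ^ 2 := by positivity
    rcases le_or_gt |s| (2 * L + 1) with hs | hs
    · have hn := near2 h3 hd hHme hγ hc hch hC hC1 t1 t2 t3 t4 hα0.le hμ s
      rw [← hμd, ← hIQ, ← hIH, ← hIF] at hn
      have h6 : |∫ t, (t - s) * Dk α k γ t s| ≤ E1 / α ^ 4 := by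
        refine hn.trans ?_
        have e2 : α * μ ^ 2 * C0 ^ 2 * (2 * ((μ * c)⁻¹ ^ 8 * IQ)) +
            α * μ * C1 * (2 * (μ⁻¹ ^ 7 * IH)) + α * μ * C1 * (2 * (μ⁻¹ ^ 6 * IF)) =
            2 * (α * μ⁻¹ ^ 6) * (C0 ^ 2 * c⁻¹ ^ 8 * IQ) + 2 * (α * μ⁻¹ ^ 6) * (C1 * IH) +
            2 * (α * μ⁻¹ ^ 5) * (C1 * IF) := by
          rw [mul_inv, mul_pow]
          have hmm2 : μ ^ 2 * μ⁻¹ ^ 2 = 1 := by rw [← mul_pow, hmm, one_pow]
          linear_combination (2 * α * C0 ^ 2 * μ⁻¹ ^ 6 * c⁻¹ ^ 8 * IQ) * hmm2 +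
            (2 * α * C1 * μ⁻¹ ^ 6 * IH) * hmm + (2 * α * C1 * μ⁻¹ ^ 5 * IF) * hmm
        rw [e2]
        have f1 : 2 * (α * μ⁻¹ ^ 6) * (C0 ^ 2 * c⁻¹ ^ 8 * IQ) ≤
            2 * (4096 / α ^ 4) * (C0 ^ 2 * c⁻¹ ^ 8 * IQ) := by gcongr
        have f2 : 2 * (α * μ⁻¹ ^ 6) * (C1 * IH) ≤ 2 * (4096 / α ^ 4) * (C1 * IH) := by gcongr
        have f3 : 2 * (α * μ⁻¹ ^ 5) * (C1 * IF) ≤ 2 * (1024 / α ^ 4) * (C1 * IF) := by gcongr
        refine (add_le_add (add_le_add f1 f2) f3).trans (le_of_eq ?_)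
        rw [hE1]; ring
      refine h6.trans ?_
      have h9 : s ^ 2 ≤ (2 * L + 1) ^ 2 := by
        rw [← sq_abs s]
        exact pow_le_pow_left₀ (abs_nonneg _) hs 2
      rw [← div_eq_mul_inv, le_div_iff₀ hs1, div_mul_eq_mul_div]
      apply div_le_div_of_nonneg_right _ hα4.le
      calc E1 * (1 + s ^ 2) ≤ E1 * (1 + (2 * L + 1) ^ 2) :=
            mul_le_mul_of_nonneg_left (by linarith) pE1
        _ ≤ M := by rw [hM]; linarith
    · have hsL : L < |s| := by linarith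
      have hf := far2 h3 hd hγ hc hch hC t1 t2 hα0.le hμ s hsL
      rw [← hμd, ← hIH] at hf
      have h10 : |∫ t, (t - s) * Dk α k γ t s| ≤
          (8192 / α ^ 4) * (C0 * c⁻¹ ^ 7 * IH) * (|s| - L)⁻¹ ^ 2 := by
        refine hf.trans ?_
        have e2 : α * μ * C0 * (|s| - L)⁻¹ ^ 2 * (2 * ((μ * c)⁻¹ ^ 7 * IH)) =
            2 * (α * μ⁻¹ ^ 6) * (C0 * c⁻¹ ^ 7 * IH) * (|s| - L)⁻¹ ^ 2 := by
          rw [mul_inv, mul_pow]
          linear_combination (2 * α * C0 * (|s| - L)⁻¹ ^ 2 * μ⁻¹ ^ 6 * c⁻¹ ^ 7 * IH) * hmm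
        rw [e2]
        have f1 : 2 * (α * μ⁻¹ ^ 6) ≤ 8192 / α ^ 4 := by
          calc 2 * (α * μ⁻¹ ^ 6) ≤ 2 * (4096 / α ^ 4) := by gcongr
            _ = 8192 / α ^ 4 := by ring
        exact mul_le_mul_of_nonneg_right (mul_le_mul_of_nonneg_right f1 (by positivity))
          (by positivity)
      refine h10.trans ?_
      have h11 : (|s| - L)⁻¹ ^ 2 ≤ 8 * (1 + s ^ 2)⁻¹ := inv_bd hL hs
      calc (8192 / α ^ 4) * (C0 * c⁻¹ ^ 7 * IH) * (|s| - L)⁻¹ ^ 2 ≤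
            (8192 / α ^ 4) * (C0 * c⁻¹ ^ 7 * IH) * (8 * (1 + s ^ 2)⁻¹) :=
            mul_le_mul_of_nonneg_left h11 (by positivity)
        _ = E2 / α ^ 4 * (1 + s ^ 2)⁻¹ := by rw [hE2]; ring
        _ ≤ M / α ^ 4 * (1 + s ^ 2)⁻¹ := by
            apply mul_le_mul_of_nonneg_right _ (by positivity)
            apply div_le_div_of_nonneg_right _ hα4.le
            rw [hM]
            have : 0 ≤ E1 * (1 + (2 * L + 1) ^ 2) := by positivity
            linarith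
  have hint : Integrable (fun s : ℝ => M / α ^ 4 * (1 + s ^ 2)⁻¹) :=
    integrable_inv_one_add_sq.const_mul _
  calc ∫ s, |∫ t, (t - s) * Dk α k γ t s| ≤
        ∫ s : ℝ, M / α ^ 4 * (1 + s ^ 2)⁻¹ :=
        integral_mono_of_nonneg (Eventually.of_forall fun _ => abs_nonneg _) hint
          (Eventually.of_forall key)
    _ = M / α ^ 4 * Real.pi := by rw [integral_const_mul, integral_univ_inv_one_add_sq]
    _ ≤ (M * Real.pi + 1) / α ^ 4 := by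
        rw [div_mul_eq_mul_div]
        apply div_le_div_of_nonneg_right _ hα4.le
        linarith

end

end Pool.Agent.E8helper13.LC
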