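import Pool.Agent.E8helper19.LC.Stm

/-!
# Project LC, piece LC14: generalized eigenfunctions are potentials of their values on the curve
-/

set_option autoImplicit false
open MeasureTheory Filter Topology Set Laplacian
open scoped ContDiff Real

namespace Pool.Agent.E8helper13.LC

open Pool.Agent.E8helper19.LC

theorem Gk_abs (μ ρ : ℝ) : Gk μ ρ = Gk μ |ρ| := by
  unfold Gk
  simp only [sq_abs]

theorem Gk_nonneg (μ ρ : ℝ) : 0 ≤ Gk μ ρ := by
  unfold Gk
  refine setIntegral_nonneg measurableSet_Ioi fun t ht => ?_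
  have : (0 : ℝ) < t := ht
  positivity

theorem Gk_meas (hG : S_G) {μ : ℝ} (hμ : 0 < μ) : Measurable (Gk μ) := by
  apply measurable_of_continuousOn_compl_singleton 0
  have h : Gk μ = Gk μ ∘ abs := funext (Gk_abs μ)
  rw [h]
  exact (hG.2.1 μ hμ).comp continuous_abs.continuousOn (fun x hx => abs_pos.2 hx)

theorem Gk_anti (hG : S_G) {μ x y : ℝ} (hμ : 0 < μ) (hx : 0 < x) (hxy : x ≤ y) :
    Gk μ y ≤ Gk μ x := by
  rw [(hG.1 μ x hμ hx).2, (hG.1 μ y hμ (hx.trans_le hxy)).2]
  exact hG.2.2.1 _ _ (by positivity) (mul_le_mul_of_nonneg_left hxy hμ.le)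

theorem Gk_int (hG : S_G) {μ c : ℝ} (hμ : 0 < μ) (hc : 0 < c) :
    Integrable (fun s : ℝ => Gk μ (c * |s|)) := by
  refine (hG.2.2.2.2.1 (μ * c) (by positivity)).congr ?_
  have h0 : ∀ᵐ s : ℝ, s ≠ 0 := by
    rw [ae_iff]
    simp
  filter_upwards [h0] with s hs
  have hs' : 0 < |s| := abs_pos.2 hs
  rw [(hG.1 (μ * c) _ (by positivity) hs').2, (hG.1 μ (c * |s|) hμ (by positivity)).2, mul_assoc]

/-- the data of the curve -/
structure Dat (γ : ℝ → P) (c : ℝ) : Prop where
  cont : Continuous γ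
  pos : 0 < c
  chord : ∀ s t, c * |s - t| ≤ ‖γ s - γ t‖

section
variable {γ : ℝ → P} {c μ : ℝ}

theorem near (d : Dat γ c) (x : P) : ∃ s0, ∀ s, c / 2 * |s - s0| ≤ ‖x - γ s‖ := by
  have h1 : Continuous fun s => ‖x - γ s‖ := by
    have := d.cont
    fun_prop
  have h2 : Tendsto (fun s => ‖x - γ s‖) (cocompact ℝ) atTop := by
    have h3 : Tendsto (fun s : ℝ => c * ‖s‖ - ‖x - γ 0‖) (cocompact ℝ) atTop :=
      tendsto_atTop_add_const_right _ _ ((tendsto_norm_cocompact_atTop).const_mul_atTop d.pos)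
    refine tendsto_atTop_mono (fun s => ?_) h3
    have h4 := d.chord s 0
    have h5 : γ s - γ 0 = (x - γ 0) - (x - γ s) := by abel
    have h6 : ‖γ s - γ 0‖ ≤ ‖x - γ 0‖ + ‖x - γ s‖ := by
      rw [h5]
      exact norm_sub_le _ _
    rw [sub_zero, ← Real.norm_eq_abs] at h4
    linarith
  obtain ⟨s0, h0⟩ := h1.exists_forall_le h2
  refine ⟨s0, fun s => ?_⟩
  have h4 := d.chord s s0
  have h5 : γ s - γ s0 = (x - γ s0) - (x - γ s) := by abel
  have h6 : ‖γ s - γ s0‖ ≤ ‖x - γ s0‖ + ‖x - γ s‖ := by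
    rw [h5]
    exact norm_sub_le _ _
  have := h0 s
  linarith

theorem bnd (d : Dat γ c) (hG : S_G) (hμ : 0 < μ) {x : P} {s0 : ℝ}
    (h0 : ∀ s, c / 2 * |s - s0| ≤ ‖x - γ s‖) {s : ℝ} (hs : s ≠ s0) :
    Gk μ ‖x - γ s‖ ≤ Gk μ (c / 2 * |s - s0|) := by
  have h1 : 0 < |s - s0| := abs_pos.2 (sub_ne_zero.2 hs)
  have := d.pos
  exact Gk_anti hG hμ (by positivity) (h0 s)

theorem ae_ne (a : ℝ) : ∀ᵐ s : ℝ, s ≠ a := by
  rw [ae_iff]
  simp

theorem meas2 (d : Dat γ c) (hG : S_G) (hμ : 0 < μ) :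
    Measurable fun z : P × ℝ => Gk μ ‖z.1 - γ z.2‖ := by
  have h1 : Measurable γ := d.cont.measurable
  exact (Gk_meas hG hμ).comp (by fun_prop)

theorem meas1 (d : Dat γ c) (hG : S_G) (hμ : 0 < μ) (x : P) :
    Measurable fun s : ℝ => Gk μ ‖x - γ s‖ := by
  have h1 : Measurable γ := d.cont.measurable
  exact (Gk_meas hG hμ).comp (by fun_prop)

theorem pot_int (d : Dat γ c) (hG : S_G) (hμ : 0 < μ) (x : P) :
    Integrable (fun s : ℝ => Gk μ ‖x - γ s‖) ∧
      ∫ s, Gk μ ‖x - γ s‖ ≤ ∫ s, Gk μ (c / 2 * |s|) := by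
  obtain ⟨s0, h0⟩ := near d x
  have hc2 : 0 < c / 2 := by have := d.pos; positivity
  have hi : Integrable (fun s : ℝ => Gk μ (c / 2 * |s - s0|)) :=
    (Gk_int hG hμ hc2).comp_sub_right s0
  have h1 : Integrable (fun s : ℝ => Gk μ ‖x - γ s‖) := by
    refine hi.mono' (meas1 d hG hμ x).aestronglyMeasurable ?_
    filter_upwards [ae_ne s0] with s hs
    rw [Real.norm_of_nonneg (Gk_nonneg _ _)]
    exact bnd d hG hμ h0 hs
  refine ⟨h1, ?_⟩
  have h2 : ∫ s, Gk μ (c / 2 * |s|) = ∫ s, Gk μ (c / 2 * |s - s0|) :=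
    (integral_sub_right_eq_self (fun s : ℝ => Gk μ (c / 2 * |s|)) s0).symm
  rw [h2]
  refine integral_mono_ae h1 hi ?_
  filter_upwards [ae_ne s0] with s hs
  exact bnd d hG hμ h0 hs

/-- the truncated potential is continuous -/
theorem cont_trunc (d : Dat γ c) (hG : S_G) (hμ : 0 < μ) (α : ℝ) (f : ℝ → ℂ) (hf : Continuous f)
    (C : ℝ) (hC : ∀ s, ‖f s‖ ≤ C) (ε : ℝ) (hε : 0 < ε) :
    Continuous fun x : P => ∫ s, ((α * Gk μ (max ‖x - γ s‖ ε) : ℝ) : ℂ) * f s := by
  have hc := d.pos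
  have hγ := d.cont
  have hgc := hG.2.1 μ hμ
  rw [continuous_iff_continuousAt]
  intro x0
  obtain ⟨s1, h1⟩ := near d x0
  set B : ℝ → ℝ := fun s => |α| * C * ((Icc (s1 - 4 / c) (s1 + 4 / c)).indicator (fun _ => Gk μ ε) s +
    Gk μ (c / 4 * |s - s1|)) with hB
  refine continuousAt_of_dominated (bound := B) ?_ ?_ ?_ ?_
  · refine Eventually.of_forall fun x => Continuous.aestronglyMeasurable ?_
    have h2 : Continuous fun s => Gk μ (max ‖x - γ s‖ ε) :=
      hgc.comp_continuous (by fun_prop) fun s => lt_of_lt_of_le hε (le_max_right _ _)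
    fun_prop
  · filter_upwards [Metric.ball_mem_nhds x0 one_pos] with x hx
    filter_upwards [ae_ne s1] with s hs
    rw [norm_mul, Complex.norm_real, norm_mul, Real.norm_eq_abs, Real.norm_of_nonneg (Gk_nonneg _ _), hB]
    have hC0 : 0 ≤ C := (norm_nonneg _).trans (hC 0)
    have h3 : Gk μ (max ‖x - γ s‖ ε) ≤ (Icc (s1 - 4 / c) (s1 + 4 / c)).indicator (fun _ => Gk μ ε) s +
        Gk μ (c / 4 * |s - s1|) := by
      by_cases hs2 : s ∈ Icc (s1 - 4 / c) (s1 + 4 / c)
      · rw [indicator_of_mem hs2]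
        have h4 := Gk_anti hG hμ hε (le_max_right ‖x - γ s‖ ε)
        have := Gk_nonneg μ (c / 4 * |s - s1|)
        linarith
      · rw [indicator_of_notMem hs2, zero_add]
        have h5 : 4 / c < |s - s1| := by
          by_contra hcon
          push Not at hcon
          rw [abs_le] at hcon
          exact hs2 ⟨by linarith, by linarith⟩
        have h6 : 4 < c * |s - s1| := by
          rw [div_lt_iff₀ hc] at h5
          linarith
        have h7 : ‖x0 - γ s‖ ≤ ‖x - γ s‖ + 1 := by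
          have h8 : x0 - γ s = (x - γ s) + (x0 - x) := by abel
          have h9 : ‖x0 - x‖ < 1 := by
            rw [← dist_eq_norm, dist_comm]
            exact hx
          calc ‖x0 - γ s‖ ≤ ‖x - γ s‖ + ‖x0 - x‖ := by rw [h8]; exact norm_add_le _ _
            _ ≤ ‖x - γ s‖ + 1 := by linarith
        have h8 := h1 s
        refine Gk_anti hG hμ (by positivity) (le_trans ?_ (le_max_left _ _))
        linarith
    calc |α| * Gk μ (max ‖x - γ s‖ ε) * ‖f s‖ ≤ |α| * Gk μ (max ‖x - γ s‖ ε) * C :=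
          mul_le_mul_of_nonneg_left (hC s) (mul_nonneg (abs_nonneg _) (Gk_nonneg _ _))
      _ = |α| * C * Gk μ (max ‖x - γ s‖ ε) := by ring
      _ ≤ _ := mul_le_mul_of_nonneg_left h3 (by positivity)
  · refine Integrable.const_mul (Integrable.add ?_ ?_) _
    · rw [integrable_indicator_iff measurableSet_Icc]
      exact integrableOn_const (by simp)
    · exact (Gk_int hG hμ (by positivity : 0 < c / 4)).comp_sub_right s1
  · refine ae_of_all _ fun s => ?_
    have h2 : Continuous fun x : P => Gk μ (max ‖x - γ s‖ ε) :=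
      hgc.comp_continuous (by fun_prop) fun x => lt_of_lt_of_le hε (le_max_right _ _)
    have h3 : Continuous fun x : P => ((α * Gk μ (max ‖x - γ s‖ ε) : ℝ) : ℂ) * f s := by fun_prop
    exact h3.continuousAt

theorem pot_intC (d : Dat γ c) (hG : S_G) (hμ : 0 < μ) (α : ℝ) (f : ℝ → ℂ) (hf : Continuous f)
    (C : ℝ) (hC : ∀ s, ‖f s‖ ≤ C) (x : P) :
    Integrable fun s => ((α * Gk μ ‖x - γ s‖ : ℝ) : ℂ) * f s := by
  have h1 : Integrable fun s => ((α * Gk μ ‖x - γ s‖ : ℝ) : ℂ) :=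
    (((pot_int d hG hμ x).1.const_mul α)).ofReal
  exact h1.mul_bdd (c := C) hf.aestronglyMeasurable (ae_of_all _ hC)

/-- the potential is bounded -/
theorem pot_bdd (d : Dat γ c) (hG : S_G) (hμ : 0 < μ) (α : ℝ) (f : ℝ → ℂ)
    (C : ℝ) (hC : ∀ s, ‖f s‖ ≤ C) (x : P) :
    ‖∫ s, ((α * Gk μ ‖x - γ s‖ : ℝ) : ℂ) * f s‖ ≤ |α| * C * ∫ s, Gk μ (c / 2 * |s|) := by
  have hC0 : 0 ≤ C := (norm_nonneg _).trans (hC 0)
  obtain ⟨h1, h2⟩ := pot_int d hG hμ x
  calc ‖∫ s, ((α * Gk μ ‖x - γ s‖ : ℝ) : ℂ) * f s‖ ≤ ∫ s, |α| * C * Gk μ ‖x - γ s‖ := by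
        refine norm_integral_le_of_norm_le (h1.const_mul _) (ae_of_all _ fun s => ?_)
        rw [norm_mul, Complex.norm_real, norm_mul, Real.norm_eq_abs,
          Real.norm_of_nonneg (Gk_nonneg _ _)]
        calc |α| * Gk μ ‖x - γ s‖ * ‖f s‖ ≤ |α| * Gk μ ‖x - γ s‖ * C :=
              mul_le_mul_of_nonneg_left (hC s) (mul_nonneg (abs_nonneg _) (Gk_nonneg _ _))
          _ = |α| * C * Gk μ ‖x - γ s‖ := by ring
    _ = |α| * C * ∫ s, Gk μ ‖x - γ s‖ := integral_const_mul _ _
    _ ≤ _ := mul_le_mul_of_nonneg_left h2 (by positivity)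

/-- the potential is continuous -/
theorem pot_cont (d : Dat γ c) (hG : S_G) (hμ : 0 < μ) (α : ℝ) (f : ℝ → ℂ) (hf : Continuous f)
    (C : ℝ) (hC : ∀ s, ‖f s‖ ≤ C) :
    Continuous fun x : P => ∫ s, ((α * Gk μ ‖x - γ s‖ : ℝ) : ℂ) * f s := by
  have hC0 : 0 ≤ C := (norm_nonneg _).trans (hC 0)
  have hc := d.pos
  have hc2 : 0 < c / 2 := by positivity
  have hgc := hG.2.1 μ hμ
  have hγ := d.cont
  set e : ℕ → ℝ := fun n => 1 / ((n : ℝ) + 1) with he
  have he0 : ∀ n, 0 < e n := fun n => by rw [he]; positivity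
  have het : Tendsto e atTop (𝓝 0) := tendsto_one_div_add_atTop_nhds_zero_nat
  -- the remainder
  set δ : ℕ → ℝ := fun n => ∫ s, {s : ℝ | c / 2 * |s| < e n}.indicator (fun s => Gk μ (c / 2 * |s|)) s
    with hδ
  have hΨ := Gk_int hG hμ hc2
  have hms : ∀ n, MeasurableSet {s : ℝ | c / 2 * |s| < e n} := fun n =>
    measurableSet_lt (by fun_prop) measurable_const
  have hδt : Tendsto δ atTop (𝓝 0) := by
    have h1 : Tendsto δ atTop (𝓝 (∫ _ : ℝ, (0 : ℝ))) := by
      refine tendsto_integral_of_dominated_convergence (fun s => Gk μ (c / 2 * |s|))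
        (fun n => (hΨ.indicator (hms n)).aestronglyMeasurable) hΨ ?_ ?_
      · intro n
        refine ae_of_all _ fun s => ?_
        rw [Set.indicator_apply]
        split_ifs
        · rw [Real.norm_of_nonneg (Gk_nonneg _ _)]
        · rw [norm_zero]
          exact Gk_nonneg _ _
      · filter_upwards [ae_ne 0] with s hs
        have h2 : 0 < c / 2 * |s| := mul_pos hc2 (abs_pos.2 hs)
        have h3 : ∀ᶠ n in atTop, e n < c / 2 * |s| := het.eventually (gt_mem_nhds h2)
        refine tendsto_const_nhds.congr' ?_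
        filter_upwards [h3] with n hn
        rw [indicator_of_notMem]
        intro hmem
        exact absurd (lt_trans hmem hn) (lt_irrefl _)
    simpa using h1
  have hlim : TendstoUniformly (fun (n : ℕ) (x : P) =>
      ∫ s, ((α * Gk μ (max ‖x - γ s‖ (e n)) : ℝ) : ℂ) * f s)
      (fun x : P => ∫ s, ((α * Gk μ ‖x - γ s‖ : ℝ) : ℂ) * f s) atTop := by
    rw [Metric.tendstoUniformly_iff]
    intro η hη
    have h1 : Tendsto (fun n => |α| * C * δ n) atTop (𝓝 0) := by
      simpa using hδt.const_mul (|α| * C)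
    filter_upwards [h1.eventually (gt_mem_nhds hη)] with n hn
    intro x
    refine lt_of_le_of_lt ?_ hn
    obtain ⟨s0, h0⟩ := near d x
    have hI1 := pot_intC d hG hμ α f hf C hC x
    have hI2 : Integrable fun s => ((α * Gk μ (max ‖x - γ s‖ (e n)) : ℝ) : ℂ) * f s := by
      refine (((pot_int d hG hμ x).1.const_mul (|α| * C))).mono' ?_ ?_
      · refine Continuous.aestronglyMeasurable ?_
        have h2 : Continuous fun s => Gk μ (max ‖x - γ s‖ (e n)) :=
          hgc.comp_continuous (by fun_prop) fun s => lt_of_lt_of_le (he0 n) (le_max_right _ _)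
        fun_prop
      · filter_upwards [ae_ne s0] with s hs
        rw [norm_mul, Complex.norm_real, norm_mul, Real.norm_eq_abs,
          Real.norm_of_nonneg (Gk_nonneg _ _)]
        have h3 : 0 < ‖x - γ s‖ :=
          lt_of_lt_of_le (mul_pos hc2 (abs_pos.2 (sub_ne_zero.2 hs))) (h0 s)
        have h4 := Gk_anti hG hμ h3 (le_max_left ‖x - γ s‖ (e n))
        calc |α| * Gk μ (max ‖x - γ s‖ (e n)) * ‖f s‖ ≤ |α| * Gk μ ‖x - γ s‖ * C :=
              mul_le_mul (mul_le_mul_of_nonneg_left h4 (abs_nonneg _)) (hC s) (norm_nonneg _)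
                (mul_nonneg (abs_nonneg _) (Gk_nonneg _ _))
          _ = |α| * C * Gk μ ‖x - γ s‖ := by ring
    rw [dist_eq_norm, ← integral_sub hI1 hI2]
    have hsh : δ n = ∫ s, {s : ℝ | c / 2 * |s| < e n}.indicator (fun s => Gk μ (c / 2 * |s|)) (s - s0) :=
      (integral_sub_right_eq_self
        (fun s : ℝ => {s : ℝ | c / 2 * |s| < e n}.indicator (fun s => Gk μ (c / 2 * |s|)) s) s0).symm
    rw [hsh, ← integral_const_mul]
    refine norm_integral_le_of_norm_le
      (((hΨ.indicator (hms n)).comp_sub_right s0).const_mul _) ?_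
    filter_upwards [ae_ne s0] with s hs
    have h3 : 0 < ‖x - γ s‖ :=
      lt_of_lt_of_le (mul_pos hc2 (abs_pos.2 (sub_ne_zero.2 hs))) (h0 s)
    rw [← sub_mul, ← Complex.ofReal_sub, ← mul_sub, norm_mul, Complex.norm_real, norm_mul,
      Real.norm_eq_abs, Real.norm_eq_abs]
    by_cases hcase : ‖x - γ s‖ < e n
    · have h4 := Gk_anti hG hμ h3 (le_max_left ‖x - γ s‖ (e n))
      have h5 := bnd d hG hμ h0 hs
      have h6 : s - s0 ∈ {s : ℝ | c / 2 * |s| < e n} := lt_of_le_of_lt (h0 s) hcase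
      rw [indicator_of_mem h6]
      have h7 : |Gk μ ‖x - γ s‖ - Gk μ (max ‖x - γ s‖ (e n))| ≤ Gk μ (c / 2 * |s - s0|) := by
        have := Gk_nonneg μ (max ‖x - γ s‖ (e n))
        rw [abs_of_nonneg (by linarith)]
        linarith
      calc |α| * |Gk μ ‖x - γ s‖ - Gk μ (max ‖x - γ s‖ (e n))| * ‖f s‖ ≤
            |α| * Gk μ (c / 2 * |s - s0|) * C :=
              mul_le_mul (mul_le_mul_of_nonneg_left h7 (abs_nonneg _)) (hC s) (norm_nonneg _)
                (mul_nonneg (abs_nonneg _) (Gk_nonneg _ _))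
        _ = |α| * C * Gk μ (c / 2 * |s - s0|) := by ring
    · push Not at hcase
      rw [max_eq_left hcase, sub_self, abs_zero, mul_zero, zero_mul]
      refine mul_nonneg (by positivity) ?_
      rw [Set.indicator_apply]
      split_ifs
      · exact Gk_nonneg _ _
      · exact le_rfl
  exact hlim.continuous (Eventually.of_forall fun n =>
    cont_trunc d hG hμ α f hf C hC (e n) (he0 n)).frequently

end

theorem lap_cont {φ : P → ℂ} (h : ContDiff ℝ ∞ φ) : Continuous (Laplacian.laplacian φ) := by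
  rw [InnerProductSpace.laplacian_eq_iteratedFDeriv_stdOrthonormalBasis]
  have h1 : Continuous (iteratedFDeriv ℝ 2 φ) := ((contDiff_infty.1 h) 2).continuous_iteratedFDeriv le_rfl
  refine continuous_finsetSum _ fun i _ => ?_
  exact (ContinuousMultilinearMap.apply ℝ (fun _ : Fin 2 => P) ℂ _).continuous.comp h1

theorem lap_supp {φ : P → ℂ} (h : HasCompactSupport φ) :
    HasCompactSupport (Laplacian.laplacian φ) := by
  have h1 : HasCompactSupport (iteratedFDeriv ℝ 2 φ) := h.iteratedFDeriv 2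
  refine h1.mono' ?_
  intro x hx
  apply subset_tsupport
  rw [Function.mem_support] at hx ⊢
  intro h0
  apply hx
  rw [InnerProductSpace.laplacian_eq_iteratedFDeriv_stdOrthonormalBasis]
  simp [h0]

/-- the potential satisfies the equation of the eigenfunction -/
theorem fub {γ : ℝ → P} {c μ : ℝ} (d : Dat γ c) (hG : S_G) (hμ : 0 < μ) (hF : S_FUND) (α : ℝ)
    (f : ℝ → ℂ) (hf : Continuous f) (C : ℝ) (hC : ∀ s, ‖f s‖ ≤ C) (φ : P → ℂ)
    (h : ContDiff ℝ ∞ φ) (hs : HasCompactSupport φ) :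
    ∫ x, (∫ s, ((α * Gk μ ‖x - γ s‖ : ℝ) : ℂ) * f s) *
      (-(Laplacian.laplacian φ x) + (μ ^ 2 : ℝ) * φ x) = α * ∫ s, f s * φ (γ s) := by
  have hC0 : 0 ≤ C := (norm_nonneg _).trans (hC 0)
  set l : P → ℂ := fun x => -(Laplacian.laplacian φ x) + (μ ^ 2 : ℝ) * φ x with hl
  have hlc : Continuous l := by
    have := lap_cont h
    have := h.continuous
    fun_prop
  have hls : HasCompactSupport l := by
    refine HasCompactSupport.add ?_ ?_
    · exact (lap_supp hs).neg
    · exact hs.mul_left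
  have hli : Integrable l := hlc.integrable_of_hasCompactSupport hls
  have hγ := d.cont
  have hm : AEStronglyMeasurable (fun z : P × ℝ =>
      ((α * Gk μ ‖z.1 - γ z.2‖ : ℝ) : ℂ) * f z.2 * l z.1)
      ((volume : Measure P).prod (volume : Measure ℝ)) := by
    have h1 := meas2 d hG hμ
    have h2 := hf.measurable
    have h3 := hlc.measurable
    refine Measurable.aestronglyMeasurable ?_
    fun_prop
  have hi : Integrable (fun z : P × ℝ =>
      ((α * Gk μ ‖z.1 - γ z.2‖ : ℝ) : ℂ) * f z.2 * l z.1)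
      ((volume : Measure P).prod (volume : Measure ℝ)) := by
    rw [integrable_prod_iff hm]
    refine ⟨ae_of_all _ fun x => (pot_intC d hG hμ α f hf C hC x).mul_const (l x), ?_⟩
    refine (hli.norm.const_mul (|α| * C * ∫ s, Gk μ (c / 2 * |s|))).mono' hm.norm.integral_prod_right'
      (ae_of_all _ fun x => ?_)
    rw [Real.norm_of_nonneg (integral_nonneg fun s => norm_nonneg _)]
    obtain ⟨h1, h2⟩ := pot_int d hG hμ x
    calc ∫ s, ‖((α * Gk μ ‖x - γ s‖ : ℝ) : ℂ) * f s * l x‖ ≤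
          ∫ s, |α| * C * Gk μ ‖x - γ s‖ * ‖l x‖ := by
          refine integral_mono (((pot_intC d hG hμ α f hf C hC x).mul_const _).norm)
            ((h1.const_mul _).mul_const _) fun s => ?_
          simp only
          rw [norm_mul, norm_mul, Complex.norm_real, norm_mul, Real.norm_eq_abs,
            Real.norm_of_nonneg (Gk_nonneg _ _)]
          refine mul_le_mul_of_nonneg_right ?_ (norm_nonneg _)
          calc |α| * Gk μ ‖x - γ s‖ * ‖f s‖ ≤ |α| * Gk μ ‖x - γ s‖ * C :=
                mul_le_mul_of_nonneg_left (hC s) (mul_nonneg (abs_nonneg _) (Gk_nonneg _ _))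
            _ = |α| * C * Gk μ ‖x - γ s‖ := by ring
      _ = |α| * C * (∫ s, Gk μ ‖x - γ s‖) * ‖l x‖ := by
          rw [integral_mul_const, integral_const_mul]
      _ ≤ |α| * C * (∫ s, Gk μ (c / 2 * |s|)) * ‖l x‖ :=
          mul_le_mul_of_nonneg_right (mul_le_mul_of_nonneg_left h2 (by positivity)) (norm_nonneg _)
  have hsw := integral_integral_swap (f := fun (x : P) (s : ℝ) =>
      ((α * Gk μ ‖x - γ s‖ : ℝ) : ℂ) * f s * l x) hi
  calc ∫ x, (∫ s, ((α * Gk μ ‖x - γ s‖ : ℝ) : ℂ) * f s) * l x =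
        ∫ x, ∫ s, ((α * Gk μ ‖x - γ s‖ : ℝ) : ℂ) * f s * l x := by
        refine integral_congr_ae (ae_of_all _ fun x => ?_)
        exact (integral_mul_const _ _).symm
    _ = ∫ s, ∫ x, ((α * Gk μ ‖x - γ s‖ : ℝ) : ℂ) * f s * l x := hsw
    _ = ∫ s, α * (f s * φ (γ s)) := by
        refine integral_congr_ae (ae_of_all _ fun s => ?_)
        have h1 := (hF μ hμ).2 φ (γ s) h hs
        simp only
        rw [← h1, ← integral_const_mul, ← integral_const_mul]
        refine integral_congr_ae (ae_of_all _ fun x => ?_)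
        simp only [hl]
        push_cast
        ring
    _ = α * ∫ s, f s * φ (γ s) := integral_const_mul _ _

theorem t_REPA (hF : S_FUND) (hU : S_UNI) (hCh : S_CHORD) (hG : S_G) : S_REPA := by
  intro γ L k α ψ hγ hne hk hkα hψ x
  obtain ⟨c, hc, -, hch⟩ := hCh γ L hγ hne
  have d : Dat γ c := ⟨hγ.smooth.continuous, hc, hch⟩
  have hα : 0 < α := by linarith
  have hpos : 0 < α ^ 2 / 4 - k ^ 2 := by nlinarith
  have hμ : 0 < mu α k := Real.sqrt_pos.2 hpos
  have hμ2 : mu α k ^ 2 = α ^ 2 / 4 - k ^ 2 := Real.sq_sqrt hpos.le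
  obtain ⟨C, hC⟩ := hψ.bdd
  set f : ℝ → ℂ := fun s => ψ (γ s) with hf
  have hfc : Continuous f := hψ.cont.comp d.cont
  have hfC : ∀ s, ‖f s‖ ≤ C := fun s => hC _
  set u : P → ℂ := fun x => ∫ s, ((α * Gk (mu α k) ‖x - γ s‖ : ℝ) : ℂ) * f s with hu
  have huc : Continuous u := pot_cont d hG hμ α f hfc C hfC
  have hub : ∀ x, ‖u x‖ ≤ |α| * C * ∫ s, Gk (mu α k) (c / 2 * |s|) :=
    pot_bdd d hG hμ α f C hfC
  have hw := hU (mu α k) (fun x => ψ x - u x) hμ (hψ.cont.sub huc)
    ⟨C + |α| * C * ∫ s, Gk (mu α k) (c / 2 * |s|), fun x =>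
      (norm_sub_le _ _).trans (add_le_add (hC x) (hub x))⟩ (by
      intro φ h hs
      have hlc := lap_cont h
      have hls := lap_supp hs
      have hφc := h.continuous
      have hψc := hψ.cont
      have i1 : Integrable fun x => ψ x * -(Laplacian.laplacian φ x) := by
        refine Continuous.integrable_of_hasCompactSupport (by fun_prop) ?_
        exact (HasCompactSupport.neg hls).mul_left
      have i2 : Integrable fun x => ψ x * φ x :=
        Continuous.integrable_of_hasCompactSupport (by fun_prop) hs.mul_left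
      have i3 : Integrable fun x => u x * (-(Laplacian.laplacian φ x) + ((mu α k) ^ 2 : ℝ) * φ x) := by
        refine Continuous.integrable_of_hasCompactSupport (by fun_prop) ?_
        refine HasCompactSupport.mul_left ?_
        exact (HasCompactSupport.neg hls).add hs.mul_left
      have e1 : ∫ x, ψ x * (-(Laplacian.laplacian φ x) + ((mu α k) ^ 2 : ℝ) * φ x) =
          α * ∫ s, f s * φ (γ s) := by
        have h1 := hψ.eq φ h hs
        have h2 : ∫ x, ψ x * (-(Laplacian.laplacian φ x) + ((mu α k) ^ 2 : ℝ) * φ x) =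
            (∫ x, ψ x * -(Laplacian.laplacian φ x)) + ((mu α k) ^ 2 : ℝ) * ∫ x, ψ x * φ x := by
          rw [← integral_const_mul, ← integral_add i1 (i2.const_mul _)]
          refine integral_congr_ae (ae_of_all _ fun x => ?_)
          simp only
          ring
        rw [h2, hμ2]
        have h3 : ((α ^ 2 / 4 - k ^ 2 : ℝ) : ℂ) = -((k ^ 2 - α ^ 2 / 4 : ℝ) : ℂ) := by
          push_cast
          ring
        rw [h3]
        linear_combination h1
      have e2 := fub d hG hμ hF α f hfc C hfC φ h hs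
      have i4 : Integrable fun x => ψ x * (-(Laplacian.laplacian φ x) + ((mu α k) ^ 2 : ℝ) * φ x) := by
        refine Continuous.integrable_of_hasCompactSupport (by fun_prop) ?_
        refine HasCompactSupport.mul_left ?_
        exact (HasCompactSupport.neg hls).add hs.mul_left
      have e3 : ∫ x, (ψ x - u x) * (-(Laplacian.laplacian φ x) + ((mu α k) ^ 2 : ℝ) * φ x) =
          (∫ x, ψ x * (-(Laplacian.laplacian φ x) + ((mu α k) ^ 2 : ℝ) * φ x)) -
            ∫ x, u x * (-(Laplacian.laplacian φ x) + ((mu α k) ^ 2 : ℝ) * φ x) := by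
        rw [← integral_sub i4 i3]
        refine integral_congr_ae (ae_of_all _ fun x => ?_)
        simp only
        ring
      rw [e3, e1, hu]
      simp only
      rw [e2, sub_self]) x
  exact sub_eq_zero.1 hw

end Pool.Agent.E8helper13.LC
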